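import Pool.Agent.H62.HIL.Tg
import Pool.Agent.H62.HIL.Norm

/-!
# THEOREM S, chapter 5 (PEN): the pencil of lines `u 1 = λ u 0`
-/

set_option autoImplicit false

namespace Pool.Agent.H77.SFH

open MvPolynomial SC Pool.Agent.H27.LV
open Pool.Agent.H92.SF Pool.Agent.H3.SF
open scoped IntermediateField.algebraAdjoinAdjoin

section

variable {k F : Type} [Field k] [Field F] [Algebra k F]

/-- the fields generated by `u 1 / u 0, u 0, u 2` and by `u 0, u 1, u 2` -/
theorem pen_mem (u : Fin 3 → F) (h0 : u 0 ≠ 0) (x : F) :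
    x ∈ kF (IntermediateField.adjoin k {u 1 / u 0}) ![u 0, u 2] ↔ x ∈ kF k u := by
  have hu : ∀ i, u i ∈ kF k u := fun i =>
    IntermediateField.subset_adjoin k _ (Set.mem_range_self i)
  have hv : ∀ i, (![u 0, u 2] : Fin 2 → F) i ∈
      kF (IntermediateField.adjoin k {u 1 / u 0}) ![u 0, u 2] := fun i =>
    IntermediateField.subset_adjoin _ _ (Set.mem_range_self i)
  have hlam : u 1 / u 0 ∈ IntermediateField.adjoin k {u 1 / u 0} :=
    IntermediateField.subset_adjoin k _ (Set.mem_singleton _)
  have hK : IntermediateField.adjoin k {u 1 / u 0} ≤ kF k u := by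
    rw [IntermediateField.adjoin_le_iff]
    intro y hy
    rw [Set.mem_singleton_iff.1 hy]
    exact div_mem (hu 1) (hu 0)
  constructor
  · intro hx
    induction hx using IntermediateField.adjoin_induction with
    | mem x hx =>
      obtain ⟨i, rfl⟩ := hx
      fin_cases i
      · exact hu 0
      · exact hu 2
    | algebraMap c => exact hK c.2
    | add x y _ _ hx hy => exact add_mem hx hy
    | inv x _ hx => exact inv_mem hx
    | mul x y _ _ hx hy => exact mul_mem hx hy
  · intro hx
    induction hx using IntermediateField.adjoin_induction with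
    | mem x hx =>
      obtain ⟨i, rfl⟩ := hx
      fin_cases i
      · exact hv 0
      · have h2 : (algebraMap (IntermediateField.adjoin k {u 1 / u 0}) F
            ⟨u 1 / u 0, hlam⟩) * (![u 0, u 2] : Fin 2 → F) 0 ∈
            kF (IntermediateField.adjoin k {u 1 / u 0}) ![u 0, u 2] :=
          mul_mem (IntermediateField.algebraMap_mem _ _) (hv 0)
        have h1 : (algebraMap (IntermediateField.adjoin k {u 1 / u 0}) F
            ⟨u 1 / u 0, hlam⟩) * (![u 0, u 2] : Fin 2 → F) 0 = u 1 := by
          change u 1 / u 0 * u 0 = u 1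
          rw [div_mul_cancel₀ _ h0]
        rw [h1] at h2
        exact h2
      · exact hv 1
    | algebraMap c =>
      exact IntermediateField.algebraMap_mem
        (kF (IntermediateField.adjoin k {u 1 / u 0}) ![u 0, u 2])
        (algebraMap k (IntermediateField.adjoin k {u 1 / u 0}) c)
    | add x y _ _ hx hy => exact add_mem hx hy
    | inv x _ hx => exact inv_mem hx
    | mul x y _ _ hx hy => exact mul_mem hx hy

theorem pen_finrank (u : Fin 3 → F) (h0 : u 0 ≠ 0) :
    Module.finrank (kF (IntermediateField.adjoin k {u 1 / u 0}) ![u 0, u 2]) F =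
      Module.finrank (kF k u) F := by
  let i : kF (IntermediateField.adjoin k {u 1 / u 0}) ![u 0, u 2] ≃+* kF k u :=
    { toFun := fun x => ⟨x.1, (pen_mem u h0 x.1).1 x.2⟩
      invFun := fun x => ⟨x.1, (pen_mem u h0 x.1).2 x.2⟩
      left_inv := fun x => rfl
      right_inv := fun x => rfl
      map_mul' := fun x y => rfl
      map_add' := fun x y => rfl }
  exact Algebra.finrank_eq_of_equiv_equiv i (RingEquiv.refl F) (by ext x; rfl)

theorem pen_ind (u : Fin 3 → F) (hu : AlgebraicIndependent k u)
    (hfin : FiniteDimensional (kF k u) F) :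
    AlgebraicIndependent (IntermediateField.adjoin k {u 1 / u 0}) ![u 0, u 2] := by
  have h0 : u 0 ≠ 0 := hu.ne_zero 0
  set w : Fin 2 ⊕ Unit → F := Sum.elim ![u 0, u 2] (fun _ => u 1 / u 0) with hw
  have hwm : ∀ i, w i ∈ IntermediateField.adjoin k (Set.range w) := fun i =>
    IntermediateField.subset_adjoin k _ (Set.mem_range_self i)
  have hle : kF k u ≤ IntermediateField.adjoin k (Set.range w) := by
    rw [IntermediateField.adjoin_le_iff]
    rintro y ⟨i, rfl⟩
    fin_cases i
    · exact hwm (Sum.inl 0)
    · have h1 : u 1 = w (Sum.inr ()) * w (Sum.inl 0) := by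
        change u 1 = u 1 / u 0 * u 0
        rw [div_mul_cancel₀ _ h0]
      change u 1 ∈ _
      rw [h1]
      exact mul_mem (hwm _) (hwm _)
    · exact hwm (Sum.inl 1)
  have hge : IntermediateField.adjoin k (Set.range w) ≤ kF k u := by
    have hum : ∀ i, u i ∈ kF k u := fun i =>
      IntermediateField.subset_adjoin k _ (Set.mem_range_self i)
    rw [IntermediateField.adjoin_le_iff]
    rintro y ⟨i, rfl⟩
    rcases i with i | i
    · fin_cases i
      · exact hum 0
      · exact hum 2
    · exact div_mem (hum 1) (hum 0)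
  have heq : IntermediateField.adjoin k (Set.range w) = kF k u := le_antisymm hge hle
  have halg : Algebra.IsAlgebraic (kF k u) F := Algebra.IsAlgebraic.of_finite _ _
  have halgw : Algebra.IsAlgebraic (IntermediateField.adjoin k (Set.range w)) F := by
    rw [heq]; exact halg
  have halgw' : Algebra.IsAlgebraic (Algebra.adjoin k (Set.range w)) F :=
    IntermediateField.isAlgebraic_adjoin_iff_top.mp halgw
  have halgu' : Algebra.IsAlgebraic (Algebra.adjoin k (Set.range u)) F :=
    IntermediateField.isAlgebraic_adjoin_iff_top.mp halg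
  have htb : IsTranscendenceBasis k u := hu.isTranscendenceBasis_iff_isAlgebraic.mpr halgu'
  have hcard := htb.cardinalMk_eq_trdeg
  have hle' : Cardinal.mk (Fin 2 ⊕ Unit) ≤ Algebra.trdeg k F := by
    rw [← hcard]
    simp
  have hwb : IsTranscendenceBasis k w :=
    Algebra.IsAlgebraic.isTranscendenceBasis_of_le_trdeg_of_finite k w hle'
  have h2 := (AlgebraicIndependent.sumElim_iff.mp hwb.1).2
  rw [Set.range_const] at h2
  exact IntermediateField.algebraicIndependent_adjoin_iff.mpr h2

/-- integral elements over a larger field with fewer parameters -/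
theorem itg_transfer {K : Type} [Field K] [Algebra k K] [Algebra K F] [IsScalarTower k K F]
    (u : Fin 3 → F) (v : Fin 2 → F) (lam : K) (h0 : v 0 = u 0) (h2 : v 1 = u 2)
    (h1 : algebraMap K F lam * v 0 = u 1) (a : F) (ha : Pool.Agent.H3.SF.Itg k u a) :
    Pool.Agent.H3.SF.Itg K v a := by
  obtain ⟨P, hP, hPa⟩ := ha
  let ψ : MvPolynomial (Fin 3) k →ₐ[k] MvPolynomial (Fin 2) K :=
    aeval ![X 0, C lam * X 0, X 1]
  have hψ : ((aeval v : MvPolynomial (Fin 2) K →ₐ[K] F).restrictScalars k).comp ψ
      = aeval u := by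
    apply algHom_ext
    intro i
    fin_cases i
    · simp [ψ, h0]
    · simp [ψ, h1]
    · simp [ψ, h2]
  refine ⟨P.map (ψ : MvPolynomial (Fin 3) k →+* MvPolynomial (Fin 2) K), hP.map _, ?_⟩
  rw [Polynomial.eval₂_map, ← hPa]
  congr 1
  ext x
  · exact DFunLike.congr_fun hψ (C x)
  · exact DFunLike.congr_fun hψ (X x)

end

theorem pf_PEN (_ : T_HMP) : Pool.Agent.H62.HIL.T_PEN := by
  intro k F _ _ _ _ d u E h
  have h0 : u 0 ≠ 0 := h.ind.ne_zero 0
  have hfin : FiniteDimensional (kF k u) F := by
    apply FiniteDimensional.of_finrank_pos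
    rw [h.deg]
    exact h.pos
  have hlam : u 1 / u 0 ∈ IntermediateField.adjoin k {u 1 / u 0} :=
    IntermediateField.subset_adjoin k _ (Set.mem_singleton _)
  refine ⟨?_, fun a ha => itg_transfer (K := IntermediateField.adjoin k {u 1 / u 0}) u ![u 0, u 2]
    ⟨u 1 / u 0, hlam⟩ rfl rfl (div_mul_cancel₀ _ h0) a ha⟩
  have hElam : E (u 1 / u 0) = 0 := by
    have h2 : Hm k E 1 (u 1) := by unfold Hm; rw [h.eul]; simp
    have h3 : Hm k E 1 (u 0) := by unfold Hm; rw [h.eul]; simp
    have h4 := Pool.Agent.H62.HIL.hm_div h2 h3 h0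
    unfold Hm at h4
    rw [h4]; simp
  have hk : ∀ a ∈ IntermediateField.adjoin k {u 1 / u 0}, E a = 0 := by
    intro a ha
    induction ha using IntermediateField.adjoin_induction with
    | mem x hx => rw [Set.mem_singleton_iff.1 hx]; exact hElam
    | algebraMap c => exact E.map_algebraMap c
    | add x y _ _ hx hy => rw [map_add, hx, hy, add_zero]
    | inv x _ hx => rw [Derivation.leibniz_inv, hx, smul_zero]
    | mul x y _ _ hx hy => rw [Derivation.leibniz, hx, hy, smul_zero, smul_zero, add_zero]
  let E' : Derivation (IntermediateField.adjoin k {u 1 / u 0}) F F := Derivation.mk'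
    { toFun := E
      map_add' := fun x y => map_add E x y
      map_smul' := by
        intro c x
        rw [Algebra.smul_def, Derivation.leibniz]
        have h5 : E (algebraMap (IntermediateField.adjoin k {u 1 / u 0}) F c) = 0 := hk _ c.2
        rw [h5, smul_zero, add_zero]
        rfl }
    (by
      intro a b
      exact E.leibniz a b)
  have hE' : ∀ x, E' x = E x := fun x => rfl
  refine ⟨E', hE', ⟨pen_ind u h.ind hfin, ?_, h.pos, ?_⟩⟩
  · rw [pen_finrank u h0]
    exact h.deg
  · intro i
    rw [hE']
    fin_cases i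
    · exact h.eul 0
    · exact h.eul 2

end Pool.Agent.H77.SFH
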